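import Mathlib

/-!
For every tree of order `n`, the upper signed domination number exceeds the signed domination
number by at most `4 n / 7` (and by at most `(4 n - 8) / 7` if `n ≥ 2`).
-/

namespace Pool.Agent.Results.MP_1fa864_co.TreesFourSevenths

open SimpleGraph

/-- `f` is a signed dominating function: values `1` or `-1`, and the sum over every closed
neighbourhood is at least `1`. -/
def IsSDF {V : Type} (G : SimpleGraph V) [G.LocallyFinite] (f : V → ℤ) : Prop :=
  (∀ v, f v = 1 ∨ f v = -1) ∧ ∀ v, 1 ≤ f v + ∑ u ∈ G.neighborFinset v, f u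

/-- `f` is a minimal signed dominating function: no SDF `g ≠ f` is pointwise at most `f`. -/
def IsMinimalSDF {V : Type} (G : SimpleGraph V) [G.LocallyFinite] (f : V → ℤ) : Prop :=
  IsSDF G f ∧ ∀ g : V → ℤ, IsSDF G g → (∀ v, g v ≤ f v) → g = f

/-- The signed domination number. -/
noncomputable def signedDom {V : Type} [Fintype V] (G : SimpleGraph V) [G.LocallyFinite] : ℤ :=
  sInf {k | ∃ f : V → ℤ, IsSDF G f ∧ ∑ v, f v = k}

/-- The upper signed domination number. -/
noncomputable def upperSignedDom {V : Type} [Fintype V] (G : SimpleGraph V)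
    [G.LocallyFinite] : ℤ :=
  sSup {k | ∃ f : V → ℤ, IsMinimalSDF G f ∧ ∑ v, f v = k}

/-- The antisymmetric potential used for discharging. -/
def pot : List (List ℤ) :=
  [[0, -12, -12, 12, 6, 8, 6, 4],
   [12, 0, 14, 14, 6, 4, 8, 6],
   [12, -14, 0, 12, 6, 8, 6, 4],
   [-12, -14, -12, 0, 6, 4, 8, 6],
   [-6, -6, -6, -6, 0, 4, 0, -2],
   [-8, -4, -8, -4, -4, 0, 2, 0],
   [-6, -8, -6, -8, 0, -2, 0, -2],
   [-4, -6, -4, -6, 2, 0, 2, 0]]

/-- The entries of the potential. -/
def ppi (a b : Fin 8) : ℤ := (pot.getD a.val []).getD b.val 0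

theorem ppi_anti : ∀ a b, ppi a b = - ppi b a := by decide

/-- The label of a vertex. -/
def lab (f t g : Bool) : Fin 8 :=
  match f, t, g with
  | false, false, false => 0
  | true, false, false => 1
  | false, true, false => 2
  | true, true, false => 3
  | false, false, true => 4
  | true, false, true => 5
  | false, true, true => 6
  | true, true, true => 7

/-- sign of `f` for a label -/
def sf (a : Fin 8) : ℤ := if a.val % 2 = 1 then 1 else -1

/-- tightness of a label -/
def st (a : Fin 8) : ℤ := if (a.val / 2) % 2 = 1 then 1 else 0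

/-- sign of `g` for a label -/
def sg (a : Fin 8) : ℤ := if a.val / 4 = 1 then 1 else -1

theorem sum_lab {V : Type} [Fintype V] [DecidableEq V] (S : Finset V) (L : V → Fin 8)
    (φ : Fin 8 → ℤ) :
    ∑ u ∈ S, φ (L u) = ∑ i : Fin 8, ((S.filter (fun u => L u = i)).card : ℤ) * φ i := by
  rw [← Finset.sum_fiberwise_of_maps_to (s := S) (t := Finset.univ) (g := L)
    (fun _ _ => Finset.mem_univ _)]
  apply Finset.sum_congr rfl
  intro i _
  rw [Finset.sum_congr rfl (g := fun _ => φ i)]
  · rw [Finset.sum_const, nsmul_eq_mul]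
  · intro u hu
    rw [(Finset.mem_filter.mp hu).2]

theorem local_ineq (a : Fin 8) (n : Fin 8 → ℤ) (hn : ∀ i, 0 ≤ n i)
    (hd : 1 ≤ ∑ i : Fin 8, n i)
    (hf : 1 ≤ sf a + ∑ i : Fin 8, n i * sf i)
    (hg : 1 ≤ sg a + ∑ i : Fin 8, n i * sg i)
    (ht : st a = 1 → sf a + ∑ i : Fin 8, n i * sf i ≤ 2)
    (ht' : st a = 0 → 3 ≤ sf a + ∑ i : Fin 8, n i * sf i)
    (hm : sf a = 1 → st a = 0 → 1 ≤ ∑ i : Fin 8, n i * st i) :
    7 * (sf a - sg a) ≤ 4 + 4 * (∑ i : Fin 8, n i - 2) + ∑ i : Fin 8, n i * ppi a i := by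
  have h0 := hn 0
  have h1 := hn 1
  have h2 := hn 2
  have h3 := hn 3
  have h4 := hn 4
  have h5 := hn 5
  have h6 := hn 6
  have h7 := hn 7
  simp only [Fin.sum_univ_eight] at *
  generalize n 0 = n0 at *
  generalize n 1 = n1 at *
  generalize n 2 = n2 at *
  generalize n 3 = n3 at *
  generalize n 4 = n4 at *
  generalize n 5 = n5 at *
  generalize n 6 = n6 at *
  generalize n 7 = n7 at *
  fin_cases a
  · simp [sf, sg, st, ppi, pot] at *
    omega
  · simp [sf, sg, st, ppi, pot] at *
    omega
  · simp [sf, sg, st, ppi, pot] at *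
    omega
  · simp [sf, sg, st, ppi, pot] at *
    omega
  · simp [sf, sg, st, ppi, pot] at *
    omega
  · simp [sf, sg, st, ppi, pot] at *
    omega
  · simp [sf, sg, st, ppi, pot] at *
    omega
  · simp [sf, sg, st, ppi, pot] at *
    omega

/-- The key property of minimal signed dominating functions. -/
theorem exists_tight {V : Type} [Fintype V] (G : SimpleGraph V) [DecidableRel G.Adj]
    {f : V → ℤ} (hf : IsMinimalSDF G f) {v : V} (hv : f v = 1) :
    f v + ∑ w ∈ G.neighborFinset v, f w ≤ 2 ∨
      ∃ u ∈ G.neighborFinset v, f u + ∑ w ∈ G.neighborFinset u, f w ≤ 2 := by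
  classical
  by_contra hcon
  push Not at hcon
  obtain ⟨h1, h2⟩ := hcon
  let g : V → ℤ := Function.update f v (-1)
  have hgv : g v = -1 := by simp [g]
  have hgo : ∀ w, w ≠ v → g w = f w := by intro w hw; simp [g, hw]
  have hle : ∀ w, g w ≤ f w := by
    intro w
    by_cases hw : w = v
    · rw [hw, hgv, hv]; norm_num
    · rw [hgo w hw]
  have hnot : ∀ u, v ∉ G.neighborFinset u →
      ∑ w ∈ G.neighborFinset u, g w = ∑ w ∈ G.neighborFinset u, f w := by
    intro u hu
    apply Finset.sum_congr rfl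
    intro w hw
    apply hgo
    rintro rfl; exact hu hw
  have hin : ∀ u, v ∈ G.neighborFinset u →
      ∑ w ∈ G.neighborFinset u, g w = ∑ w ∈ G.neighborFinset u, f w - 2 := by
    intro u hu
    rw [← Finset.add_sum_erase _ _ hu, ← Finset.add_sum_erase _ f hu, hgv, hv]
    have : ∑ w ∈ (G.neighborFinset u).erase v, g w = ∑ w ∈ (G.neighborFinset u).erase v, f w := by
      apply Finset.sum_congr rfl
      intro w hw
      exact hgo w (Finset.ne_of_mem_erase hw)
    rw [this]; ring
  have hg : IsSDF G g := by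
    refine ⟨?_, ?_⟩
    · intro w
      by_cases hw : w = v
      · right; rw [hw, hgv]
      · rw [hgo w hw]; exact hf.1.1 w
    · intro u
      by_cases hu : u = v
      · subst hu
        rw [hnot u (by simp), hgv]
        rw [hv] at h1
        linarith
      · rw [hgo u hu]
        by_cases hadj : v ∈ G.neighborFinset u
        · rw [hin u hadj]
          have : u ∈ G.neighborFinset v := by
            rw [G.mem_neighborFinset] at hadj ⊢; exact hadj.symm
          have := h2 u this
          linarith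
        · rw [hnot u hadj]; exact hf.1.2 u
  have := hf.2 g hg hle
  rw [this] at hgv
  rw [hv] at hgv
  norm_num at hgv

theorem main {V : Type} [Fintype V] (G : SimpleGraph V) [DecidableRel G.Adj] (hG : G.IsTree)
    (hV : 2 ≤ Fintype.card V) {f g : V → ℤ} (hf : IsMinimalSDF G f) (hg : IsSDF G g) :
    7 * (∑ v, f v - ∑ v, g v) ≤ 4 * (Fintype.card V : ℤ) - 8 := by
  classical
  have hnt : Nontrivial V := Fintype.one_lt_card_iff_nontrivial.mp (by omega)
  let F : V → ℤ := fun v => f v + ∑ w ∈ G.neighborFinset v, f w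
  let L : V → Fin 8 := fun v => lab (decide (f v = 1)) (decide (F v ≤ 2)) (decide (g v = 1))
  have hsf : ∀ v, sf (L v) = f v := by
    intro v
    simp only [L]
    rcases hf.1.1 v with h | h <;> rcases hg.1 v with h' | h' <;> by_cases h'' : F v ≤ 2 <;>
      simp [h, h', h'', lab, sf]
  have hsg : ∀ v, sg (L v) = g v := by
    intro v
    simp only [L]
    rcases hf.1.1 v with h | h <;> rcases hg.1 v with h' | h' <;> by_cases h'' : F v ≤ 2 <;>
      simp [h, h', h'', lab, sg]
  have hst : ∀ v, st (L v) = if F v ≤ 2 then 1 else 0 := by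
    intro v
    simp only [L]
    rcases hf.1.1 v with h | h <;> rcases hg.1 v with h' | h' <;> by_cases h'' : F v ≤ 2 <;>
      simp [h, h', h'', lab, st]
  have hloc : ∀ v, 7 * (f v - g v) ≤ 4 + 4 * ((G.degree v : ℤ) - 2) +
      ∑ u ∈ G.neighborFinset v, ppi (L v) (L u) := by
    intro v
    have e1 : (G.degree v : ℤ) = ∑ i : Fin 8,
        (((G.neighborFinset v).filter (fun u => L u = i)).card : ℤ) := by
      have := sum_lab (G.neighborFinset v) L (fun _ => 1)
      simp only [Finset.sum_const, nsmul_eq_mul, mul_one, G.card_neighborFinset_eq_degree] at this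
      exact this
    have e2 : ∑ u ∈ G.neighborFinset v, f u = ∑ i : Fin 8,
        (((G.neighborFinset v).filter (fun u => L u = i)).card : ℤ) * sf i := by
      rw [← sum_lab]
      exact Finset.sum_congr rfl (fun u _ => (hsf u).symm)
    have e3 : ∑ u ∈ G.neighborFinset v, g u = ∑ i : Fin 8,
        (((G.neighborFinset v).filter (fun u => L u = i)).card : ℤ) * sg i := by
      rw [← sum_lab]
      exact Finset.sum_congr rfl (fun u _ => (hsg u).symm)
    have e4 := sum_lab (G.neighborFinset v) L (ppi (L v))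
    have e5 := sum_lab (G.neighborFinset v) L st
    have hFv : F v = sf (L v) + ∑ i : Fin 8,
        (((G.neighborFinset v).filter (fun u => L u = i)).card : ℤ) * sf i := by
      rw [hsf v, ← e2]
    rw [e4, e1, ← hsf v, ← hsg v]
    apply local_ineq
    · intro i; exact Int.natCast_nonneg _
    · rw [← e1]
      have := hG.connected.preconnected.degree_pos_of_nontrivial v
      exact_mod_cast this
    · rw [← hFv]; exact hf.1.2 v
    · rw [hsg v, ← e3]; exact hg.2 v
    · intro h
      rw [hst v] at h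
      rw [← hFv]
      by_contra h'
      simp [h'] at h
    · intro h
      rw [hst v] at h
      rw [← hFv]
      by_contra h'
      have : F v ≤ 2 := by omega
      simp [this] at h
    · intro h1 h2
      rw [hsf v] at h1
      rw [hst v] at h2
      rw [← e5]
      rcases exists_tight G hf h1 with h3 | ⟨u, hu, h3⟩
      · exfalso
        have : F v ≤ 2 := h3
        simp [this] at h2
      · have h4 : st (L u) = 1 := by
          rw [hst u]
          have : F u ≤ 2 := h3
          simp [this]
        calc (1 : ℤ) = st (L u) := h4.symm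
          _ ≤ _ := Finset.single_le_sum (f := fun u => st (L u)) (fun w _ => by
            show 0 ≤ st (L w)
            rw [hst w]; split_ifs <;> norm_num) hu
  have hS : ∑ v, ∑ u ∈ G.neighborFinset v, ppi (L v) (L u) = 0 := by
    have h1 : ∑ v, ∑ u ∈ G.neighborFinset v, ppi (L v) (L u)
        = ∑ u, ∑ v ∈ G.neighborFinset u, ppi (L v) (L u) := by
      apply Finset.sum_comm'
      intro x y
      simp [G.adj_comm]
    have h2 : ∑ u, ∑ v ∈ G.neighborFinset u, ppi (L v) (L u)
        = - ∑ u, ∑ v ∈ G.neighborFinset u, ppi (L u) (L v) := by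
      rw [← Finset.sum_neg_distrib]
      apply Finset.sum_congr rfl
      intro u _
      rw [← Finset.sum_neg_distrib]
      apply Finset.sum_congr rfl
      intro v _
      exact ppi_anti _ _
    linarith
  have hdeg : ∑ v, (G.degree v : ℤ) = 2 * ((Fintype.card V : ℤ) - 1) := by
    have h1 := G.sum_degrees_eq_twice_card_edges
    have h2 := hG.card_edgeFinset
    have h3 : ∑ v, (G.degree v : ℤ) = ((∑ v, G.degree v : ℕ) : ℤ) := by push_cast; rfl
    rw [h3, h1]
    have : (G.edgeFinset.card : ℤ) + 1 = Fintype.card V := by exact_mod_cast h2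
    push_cast
    linarith
  have hsum := Finset.sum_le_sum (fun v (_ : v ∈ Finset.univ) => hloc v)
  rw [Finset.sum_add_distrib, hS, ← Finset.mul_sum, Finset.sum_sub_distrib,
    Finset.sum_add_distrib, ← Finset.mul_sum, Finset.sum_sub_distrib, hdeg] at hsum
  simp only [Finset.sum_const, Finset.card_univ, nsmul_eq_mul] at hsum
  linarith

/-- An SDF is bounded in weight. -/
theorem weight_bound {V : Type} [Fintype V] (G : SimpleGraph V) [DecidableRel G.Adj]
    {f : V → ℤ} (hf : IsSDF G f) :
    -(Fintype.card V : ℤ) ≤ ∑ v, f v ∧ ∑ v, f v ≤ Fintype.card V := by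
  constructor
  · have : ∑ _v : V, (-1 : ℤ) ≤ ∑ v, f v := Finset.sum_le_sum (fun v _ => by
      rcases hf.1 v with h | h <;> rw [h] <;> norm_num)
    simpa using this
  · have : ∑ v, f v ≤ ∑ _v : V, (1 : ℤ) := Finset.sum_le_sum (fun v _ => by
      rcases hf.1 v with h | h <;> rw [h] <;> norm_num)
    simpa using this

theorem isSDF_one {V : Type} [Fintype V] (G : SimpleGraph V) [DecidableRel G.Adj] :
    IsSDF G (fun _ => 1) := by
  refine ⟨fun v => Or.inl rfl, fun v => ?_⟩
  simp

/-- For every tree `T` of order `n`, `Γ_s(T) - γ_s(T) ≤ 4n/7`; for `n ≥ 2` even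
`Γ_s(T) - γ_s(T) ≤ (4n-8)/7`. -/
theorem result {V : Type} [Fintype V] (G : SimpleGraph V) [DecidableRel G.Adj]
    (hG : G.IsTree) :
    ((upperSignedDom G - signedDom G : ℤ) : ℚ) / Fintype.card V ≤ 4 / 7 ∧
      (2 ≤ Fintype.card V →
        7 * (upperSignedDom G - signedDom G) ≤ 4 * (Fintype.card V : ℤ) - 8) := by
  classical
  have hne1 : {k | ∃ f : V → ℤ, IsSDF G f ∧ ∑ v, f v = k}.Nonempty :=
    ⟨_, _, isSDF_one G, rfl⟩
  have hbd1 : BddBelow {k | ∃ f : V → ℤ, IsSDF G f ∧ ∑ v, f v = k} := by
    refine ⟨-(Fintype.card V : ℤ), ?_⟩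
    rintro k ⟨f, hf, rfl⟩
    exact (weight_bound G hf).1
  obtain ⟨g, hg, hgk⟩ := Int.csInf_mem hne1 hbd1
  have hgmin : ∀ f : V → ℤ, IsSDF G f → ∑ v, g v ≤ ∑ v, f v := by
    intro f hf
    rw [hgk]
    exact csInf_le hbd1 ⟨f, hf, rfl⟩
  have hgm : IsMinimalSDF G g := by
    refine ⟨hg, fun h hh hle => ?_⟩
    have h1 := hgmin h hh
    have h2 : ∑ v, h v ≤ ∑ v, g v := Finset.sum_le_sum (fun v _ => hle v)
    have h3 := (Finset.sum_eq_sum_iff_of_le (fun v (_ : v ∈ Finset.univ) => hle v)).mp
      (le_antisymm h2 h1)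
    funext v
    exact h3 v (Finset.mem_univ v)
  have hne2 : {k | ∃ f : V → ℤ, IsMinimalSDF G f ∧ ∑ v, f v = k}.Nonempty :=
    ⟨_, g, hgm, rfl⟩
  have hbd2 : BddAbove {k | ∃ f : V → ℤ, IsMinimalSDF G f ∧ ∑ v, f v = k} := by
    refine ⟨(Fintype.card V : ℤ), ?_⟩
    rintro k ⟨f, hf, rfl⟩
    exact (weight_bound G hf.1).2
  obtain ⟨f, hf, hfk⟩ := Int.csSup_mem hne2 hbd2
  have key : upperSignedDom G - signedDom G = ∑ v, f v - ∑ v, g v := by
    rw [hfk, hgk]; rfl
  have hpos : 0 < Fintype.card V := by
    have := hG.connected.nonempty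
    exact Fintype.card_pos
  have h2 : 2 ≤ Fintype.card V →
      7 * (upperSignedDom G - signedDom G) ≤ 4 * (Fintype.card V : ℤ) - 8 := by
    intro h
    rw [key]
    exact main G hG h hf hg
  refine ⟨?_, h2⟩
  have h3 : 7 * (upperSignedDom G - signedDom G) ≤ 4 * (Fintype.card V : ℤ) := by
    by_cases h : 2 ≤ Fintype.card V
    · have := h2 h; linarith
    · have hc : Fintype.card V = 1 := by omega
      obtain ⟨x, hx⟩ := Fintype.card_eq_one_iff.mp hc
      have hone : ∀ f : V → ℤ, IsSDF G f → f x = 1 := by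
        intro f hf
        have h4 := hf.2 x
        have h5 : G.neighborFinset x = ∅ := by
          rw [Finset.eq_empty_iff_forall_notMem]
          intro y hy
          rw [G.mem_neighborFinset, hx y] at hy
          exact G.loopless.irrefl _ hy
        rw [h5, Finset.sum_empty] at h4
        rcases hf.1 x with h6 | h6
        · exact h6
        · rw [h6] at h4; norm_num at h4
      have huniv : (Finset.univ : Finset V) = {x} := by
        ext y; simp [hx y]
      rw [key, huniv, Finset.sum_singleton, Finset.sum_singleton, hone f hf.1, hone g hg, hc]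
      norm_num
  rw [div_le_iff₀ (by exact_mod_cast hpos)]
  have h4 : ((7 * (upperSignedDom G - signedDom G) : ℤ) : ℚ) ≤ ((4 * (Fintype.card V : ℤ) : ℤ) : ℚ) := by
    exact_mod_cast h3
  push_cast at h4 ⊢
  linarith

end Pool.Agent.Results.MP_1fa864_co.TreesFourSevenths
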